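import Pool.Agent.H609.AV.Count

/-!
# The real roots of random integer polynomials all but two of whose coefficients are prescribed

Let `E` be a set of at least two exponents `≤ D`. The coefficients of `X ^ i`, `i ∉ E`, are prescribed
arbitrarily (they may be any real numbers of absolute value at most `H`, and they may depend on `H`),
and the coefficients `a_i`, `i ∈ E`, are random integers with `|a_i| ≤ H`. It is proved that for almost
all choices of the `a_i`, uniformly in the prescribed coefficients, every real root `x` with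
`1 / R ≤ |x| ≤ R` is normal up to the place `A log H`, jointly with its powers `x ^ 2, …, x ^ m`, in all
bases up to `B`, with the discrepancy of random numbers.

Examples: almost all real algebraic integers of given degree (monic polynomials), almost all real units
(`X ^ D + a_(D-1) X ^ (D-1) + … + a_1 X ± 1`), almost all roots of trinomials `X ^ D + a X + b` or
`a X ^ 5 + b X ^ 2 + 17`. With all coefficients random this was known from earlier results.

Proof. Locally the root is an analytic function `x(a, b)` of two of the coefficients. If a combination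
`g(x)` of its powers were near some point a polynomial `P(a, b)`, then `P` would be equal to the constant
`g(x)` on the whole line of all `(a, b)` for which `x` is a root. But any two of these lines meet, so
`g` would be constant. Therefore derivatives of arbitrarily high order do not vanish, and one gets bounds
for the exponential sums and for the discrepancy near every simple root (`Pool.Agent.H609.AV.main_pairs`),
uniformly on compact sets. The polynomials with nearly multiple roots are counted directly: the value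
and the derivative at the points of a grid are small, and these are two independent
linear conditions for `(a, b)`.
-/

set_option autoImplicit false

namespace Pool.Agent.H609.Spare.PrescribedCoefficients

open Finset Filter Topology
open Pool.Agent.H609.AV (JN pt pt_mem pt_not main_pairs root_locAna near_count)
open Pool.Agent.Q270.SR (Disc)
open Pool.Agent.Q270.AA (pv pd)

/-- no positive powers of `a` and `b` are equal -/
def MultIndep (a b : ℕ) : Prop := ∀ x y : ℕ, 1 ≤ x → 1 ≤ y → a ^ x ≠ b ^ y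

/-- the discrepancy of the `L` points `(b_1 ^ (s_1 + i) x_1, …, b_n ^ (s_n + i) x_n)`, `i < L`, modulo
one is at most `E`: the number of the `i < L` such that the fractional part of `b_j ^ (s_j + i) x_j` is
smaller than `t_j` for all `j` differs from `L ∏ t_j` by at most `E`, for all `0 ≤ t_j ≤ 1` -/
def DiscLe {n : ℕ} (b s : Fin n → ℕ) (L : ℕ) (x : Fin n → ℝ) (E : ℝ) : Prop :=
  ∀ t : Fin n → ℝ, (∀ j, 0 ≤ t j) → (∀ j, t j ≤ 1) →
    |(({i : ℕ | i < L ∧ ∀ j, Int.fract ((b j : ℝ) ^ (s j + i) * x j) < t j}.ncard : ℕ) : ℝ) -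
      L * ∏ j, t j| ≤ E

/-- The real numbers `x_i`, `i ∈ ι`, are jointly normal up to the place `A log H`. Any finite system
of them may be chosen, each in any base up to `B`; the same number may be taken in several bases if
any two of these are multiplicatively independent. The joint discrepancy is at most `ε log H` in all
windows `s_j, …, s_j + L - 1` of places below `A log H`, and at most `(log H) ^ (1/2 + ε)` if the
windows begin after the first `κ log H` places (in the sense of `H ^ κ ≤ b_j ^ (s_j)`). -/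
def JointlyNormal {ι : Type} (B : ℕ) (A κ ε : ℝ) (H : ℕ) (x : ι → ℝ) : Prop :=
  ∀ (n : ℕ) (σ : Fin n → ι) (b : Fin n → ℕ), 1 ≤ n → (∀ j, 2 ≤ b j ∧ b j ≤ B) →
    (∀ j j', j ≠ j' → σ j = σ j' → MultIndep (b j) (b j')) →
    ∀ (s : Fin n → ℕ) (L : ℕ), (∀ j, (s j : ℝ) + L ≤ A * Real.log H) →
      DiscLe b s L (fun j => x (σ j)) (ε * Real.log H) ∧
      ((∀ j, (H : ℝ) ^ κ ≤ (b j : ℝ) ^ s j) →
        DiscLe b s L (fun j => x (σ j)) (Real.log H ^ (1 / 2 + ε)))

/-- the coefficients: the integers `a_i` for `i ∈ E`, and the prescribed numbers `p_i` for `i ∉ E` -/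
def coeffs {D : ℕ} (E : Finset (Fin (D + 1))) (p : Fin (D + 1) → ℝ) (a : Fin (D + 1) → ℤ)
    (i : Fin (D + 1)) : ℝ := if i ∈ E then (a i : ℝ) else p i

/-- the vectors of integers `a_i`, `i ∈ E`, of absolute value at most `H` (with `a_i = 0` for `i ∉ E`) -/
def Box {D : ℕ} (E : Finset (Fin (D + 1))) (H : ℕ) : Set (Fin (D + 1) → ℤ) :=
  {a | (∀ i ∈ E, |a i| ≤ H) ∧ ∀ i, i ∉ E → a i = 0}

lemma disc_iff {n : ℕ} (b s : Fin n → ℕ) (L : ℕ) (x : Fin n → ℝ) (E : ℝ) :
    DiscLe b s L x E ↔ Disc b s L x E := by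
  classical
  unfold DiscLe Disc
  refine forall_congr' fun t => ?_
  have h : {i : ℕ | i < L ∧ ∀ j, Int.fract ((b j : ℝ) ^ (s j + i) * x j) < t j} =
      (((Finset.range L).filter (fun i => ∀ j, Int.fract ((b j : ℝ) ^ (s j + i) * x j) < t j) :
        Finset ℕ) : Set ℕ) := by
    ext i
    simp
  rw [h, Set.ncard_coe_finset]

lemma of_JN {m B : ℕ} {A κ ε : ℝ} {N : ℕ} {x : Fin m → ℝ}
    (h : JN B A κ ε N x) : JointlyNormal B A κ ε N x := by
  intro n σ b hn hb hind s L hsL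
  simp only [disc_iff]
  exact h n σ b hn hb hind s L hsL

/-- the compact set of the polynomials with a root -/
def Xη (D : ℕ) (R η : ℝ) : Set ((Fin (D + 1) → ℝ) × ℝ) :=
  {v | (∀ i, |v.1 i| ≤ 1) ∧ 1 / R ≤ |v.2| ∧ |v.2| ≤ R ∧ pv v.1 v.2 = 0 ∧ η ≤ |pd v.1 v.2|}

lemma Xη_compact (D : ℕ) (R η : ℝ) : IsCompact (Xη D R η) := by
  apply Metric.isCompact_of_isClosed_isBounded
  · have e1 : IsClosed {v : (Fin (D + 1) → ℝ) × ℝ | ∀ i, |v.1 i| ≤ 1} := by
      simp only [Set.ofPred_forall]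
      refine isClosed_iInter fun i => isClosed_le ?_ continuous_const
      fun_prop
    have e2 : IsClosed {v : (Fin (D + 1) → ℝ) × ℝ | 1 / R ≤ |v.2|} :=
      isClosed_le continuous_const (by fun_prop)
    have e3 : IsClosed {v : (Fin (D + 1) → ℝ) × ℝ | |v.2| ≤ R} :=
      isClosed_le (by fun_prop) continuous_const
    have e4 : IsClosed {v : (Fin (D + 1) → ℝ) × ℝ | pv v.1 v.2 = 0} := by
      refine isClosed_eq ?_ continuous_const
      unfold pv
      fun_prop
    have e5 : IsClosed {v : (Fin (D + 1) → ℝ) × ℝ | η ≤ |pd v.1 v.2|} := by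
      refine isClosed_le continuous_const ?_
      unfold pd
      fun_prop
    exact e1.inter (e2.inter (e3.inter (e4.inter e5)))
  · refine ((Metric.isBounded_closedBall (x := (0 : Fin (D + 1) → ℝ)) (r := 1)).prod
      (Metric.isBounded_closedBall (x := (0 : ℝ)) (r := R))).subset ?_
    rintro ⟨c, z⟩ ⟨h1, -, h2, -⟩
    refine ⟨?_, ?_⟩
    · rw [Metric.mem_closedBall, dist_zero_right, pi_norm_le_iff_of_nonneg zero_le_one]
      exact fun i => h1 i
    · rw [Metric.mem_closedBall, dist_zero_right]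
      exact h2

lemma pt_coeffs {D : ℕ} {E : Finset (Fin (D + 1))} {H : ℕ} (hH : 1 ≤ H)
    (p : Fin (D + 1) → ℝ) (a : Fin (D + 1) → ℤ) (i : Fin (D + 1)) :
    pt E H (fun i => p i / H) a i = coeffs E p a i / H := by
  unfold coeffs
  by_cases hi : i ∈ E
  · rw [pt_mem hi, if_pos hi]
  · rw [pt_not hi, if_neg hi]

lemma pt_bound {D : ℕ} {E : Finset (Fin (D + 1))} {H : ℕ} (hH : 1 ≤ H) {p : Fin (D + 1) → ℝ}
    (hp : ∀ i, |p i| ≤ H) {a : Fin (D + 1) → ℤ} (ha : a ∈ Box E H) (i : Fin (D + 1)) :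
    |pt E H (fun i => p i / H) a i| ≤ 1 := by
  have hHR : (0 : ℝ) < H := by exact_mod_cast hH
  rw [pt_coeffs hH, abs_div, abs_of_pos hHR, div_le_one hHR]
  unfold coeffs
  by_cases hi : i ∈ E
  · rw [if_pos hi]
    have := ha.1 i hi
    have h2 : ((|a i| : ℤ) : ℝ) ≤ ((H : ℤ) : ℝ) := by exact_mod_cast this
    push_cast at h2
    exact h2
  · rw [if_neg hi]
    exact hp i

lemma Box_finite {D : ℕ} (E : Finset (Fin (D + 1))) (H : ℕ) : (Box E H).Finite := by
  refine (Pool.Agent.Q270.AA.cube_finite D H).subset fun a ha i => ?_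
  by_cases hi : i ∈ E
  · exact ha.1 i hi
  · rw [ha.2 i hi, abs_zero]
    positivity

/-- Let `E` be a set of at least two exponents. Then for every `ζ > 0`, all large `H` and all real numbers
`p_i` with `|p_i| ≤ H`, `i ∉ E`, all but at most `ζ H ^ |E|` of the integral vectors `(a_i)`, `i ∈ E`,
with `|a_i| ≤ H` have the property that for every real root `x` of
`∑_{i ∈ E} a_i X ^ i + ∑_{i ∉ E} p_i X ^ i` with `1 / R ≤ |x| ≤ R` the numbers `x, x ^ 2, …, x ^ m` are
jointly normal up to the place `A log H`; if one considers only the roots at which the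
derivative has absolute value at least `η H`, there are at most `H ^ |E| (log H) ^ (-T)` exceptions. -/
theorem result (D m B : ℕ) (E : Finset (Fin (D + 1))) (hE : 2 ≤ E.card) (A κ ε R : ℝ)
    (hκ : 0 < κ) (hε : 0 < ε) (hR : 1 ≤ R) :
    (∀ ζ : ℝ, 0 < ζ → ∃ H₀ : ℕ, ∀ H : ℕ, H₀ ≤ H → ∀ p : Fin (D + 1) → ℝ, (∀ i, |p i| ≤ H) →
      (({a : Fin (D + 1) → ℤ | a ∈ Box E H ∧ ∃ x : ℝ, 1 / R ≤ |x| ∧ |x| ≤ R ∧
        ∑ i, coeffs E p a i * x ^ (i : ℕ) = 0 ∧
        ¬ JointlyNormal B A κ ε H (fun k : Fin m => x ^ ((k : ℕ) + 1))}.ncard : ℕ) : ℝ) ≤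
          ζ * (H : ℝ) ^ E.card) ∧
    (∀ η T : ℝ, 0 < η → ∃ H₀ : ℕ, ∀ H : ℕ, H₀ ≤ H → ∀ p : Fin (D + 1) → ℝ, (∀ i, |p i| ≤ H) →
      (({a : Fin (D + 1) → ℤ | a ∈ Box E H ∧ ∃ x : ℝ, 1 / R ≤ |x| ∧ |x| ≤ R ∧
        ∑ i, coeffs E p a i * x ^ (i : ℕ) = 0 ∧
        η * H ≤ |∑ i, coeffs E p a i * ((i : ℕ) * x ^ ((i : ℕ) - 1))| ∧
        ¬ JointlyNormal B A κ ε H (fun k : Fin m => x ^ ((k : ℕ) + 1))}.ncard : ℕ) : ℝ) ≤
          (H : ℝ) ^ E.card * Real.log H ^ (-T)) := by
  classical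
  obtain ⟨e, f, he, hf, hfe⟩ : ∃ e f : Fin (D + 1), e ∈ E ∧ f ∈ E ∧ (f : ℕ) < e := by
    obtain ⟨e, he, f, hf, hef⟩ := Finset.one_lt_card.1 (show 1 < E.card by omega)
    rcases lt_trichotomy (e : ℕ) f with h | h | h
    · exact ⟨f, e, hf, he, h⟩
    · exact absurd (Fin.ext h) hef
    · exact ⟨e, f, he, hf, h⟩
  have hX : ∀ η : ℝ, 0 < η → ∀ v ∈ Xη D R η, pv v.1 v.2 = 0 ∧ pd v.1 v.2 ≠ 0 ∧ v.2 ≠ 0 := by
    rintro η hη ⟨c, x⟩ ⟨h1, h2, h3, h4, h5⟩
    refine ⟨h4, fun h => ?_, fun h => ?_⟩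
    · simp only at h h5
      rw [h, abs_zero] at h5
      linarith
    · simp only at h h2
      rw [h, abs_zero] at h2
      have : 0 < 1 / R := by positivity
      linarith
  have hpvH : ∀ (H : ℕ), 1 ≤ H → ∀ (p : Fin (D + 1) → ℝ) (a : Fin (D + 1) → ℤ) (x : ℝ),
      pv (pt E H (fun i => p i / H) a) x = (∑ i, coeffs E p a i * x ^ (i : ℕ)) / H := by
    intro H hH p a x
    unfold pv
    rw [Finset.sum_div]
    refine sum_congr rfl fun i _ => ?_
    rw [pt_coeffs hH]
    ring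
  have hpdH : ∀ (H : ℕ), 1 ≤ H → ∀ (p : Fin (D + 1) → ℝ) (a : Fin (D + 1) → ℤ) (x : ℝ),
      pd (pt E H (fun i => p i / H) a) x =
        (∑ i, coeffs E p a i * ((i : ℕ) * x ^ ((i : ℕ) - 1))) / H := by
    intro H hH p a x
    unfold pd
    rw [Finset.sum_div]
    refine sum_congr rfl fun i _ => ?_
    rw [pt_coeffs hH]
    ring
  have hpart2 : ∀ η T : ℝ, 0 < η → ∃ H₀ : ℕ, ∀ H : ℕ, H₀ ≤ H → ∀ p : Fin (D + 1) → ℝ,
      (∀ i, |p i| ≤ H) → ∀ Ts : Finset (Fin (D + 1) → ℤ), (∀ a ∈ Ts, a ∈ Box E H ∧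
        ∃ x : ℝ, 1 / R ≤ |x| ∧ |x| ≤ R ∧ ∑ i, coeffs E p a i * x ^ (i : ℕ) = 0 ∧
        η * H ≤ |∑ i, coeffs E p a i * ((i : ℕ) * x ^ ((i : ℕ) - 1))| ∧
        ¬ JointlyNormal B A κ ε H (fun k : Fin m => x ^ ((k : ℕ) + 1))) →
      (Ts.card : ℝ) ≤ (H : ℝ) ^ E.card * Real.log H ^ (-T) := by
    intro η T hη
    obtain ⟨M0, hM0⟩ := main_pairs (S := E) (r := m) B A κ ε T hκ hε (fun _ => 0)
      (Xη_compact D R η) (root_locAna he hf hfe (hX η hη))
    refine ⟨max M0 1, fun H hH p hp Ts hTs => ?_⟩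
    have hH1 : 1 ≤ H := le_of_max_le_right hH
    have hHR : (0 : ℝ) < H := by exact_mod_cast hH1
    refine hM0 H (le_of_max_le_left hH) (fun i => p i / H) Ts fun a ha => ?_
    obtain ⟨g1, x, g2, g3, g4, g5, g6⟩ := hTs a ha
    refine ⟨g1.2, x, ⟨fun i => pt_bound hH1 hp g1 i, g2, g3, ?_, ?_⟩, fun hJ => g6 (of_JN ?_)⟩
    · simp only
      rw [hpvH H hH1, g4, zero_div]
    · simp only
      rw [hpdH H hH1, abs_div, abs_of_pos hHR, le_div_iff₀ hHR]
      exact g5
    · simpa using hJ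
  constructor
  · intro ζ hζ
    obtain ⟨η, hη, H1, hH1⟩ := near_count he hf hfe hR (show 0 < ζ / 2 by positivity)
    obtain ⟨H2, hH2⟩ := hpart2 η 1 hη
    have hlogt : Tendsto (fun H : ℕ => Real.log (H : ℝ)) atTop atTop :=
      Real.tendsto_log_atTop.comp tendsto_natCast_atTop_atTop
    obtain ⟨H3, hH3⟩ := eventually_atTop.1 ((hlogt.eventually_ge_atTop (2 / ζ)).and
      (hlogt.eventually_gt_atTop 0))
    refine ⟨max (max H1 H2) (max H3 1), fun H hH p hp => ?_⟩
    have q1 : H1 ≤ H := le_of_max_le_left (le_of_max_le_left hH)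
    have q2 : H2 ≤ H := le_of_max_le_right (le_of_max_le_left hH)
    have q3 : H3 ≤ H := le_of_max_le_left (le_of_max_le_right hH)
    have q4 : 1 ≤ H := le_of_max_le_right (le_of_max_le_right hH)
    obtain ⟨l1, l2⟩ := hH3 H q3
    have hHR : (0 : ℝ) < H := by exact_mod_cast q4
    have hfin : {a : Fin (D + 1) → ℤ | a ∈ Box E H ∧ ∃ x : ℝ, 1 / R ≤ |x| ∧ |x| ≤ R ∧
        ∑ i, coeffs E p a i * x ^ (i : ℕ) = 0 ∧
        ¬ JointlyNormal B A κ ε H (fun k : Fin m => x ^ ((k : ℕ) + 1))}.Finite :=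
      (Box_finite E H).subset fun a ha => ha.1
    rw [Set.ncard_eq_toFinset_card _ hfin]
    set Ts := hfin.toFinset with hTs
    have hTsm : ∀ a ∈ Ts, a ∈ Box E H ∧ ∃ x : ℝ, 1 / R ≤ |x| ∧ |x| ≤ R ∧
        ∑ i, coeffs E p a i * x ^ (i : ℕ) = 0 ∧
        ¬ JointlyNormal B A κ ε H (fun k : Fin m => x ^ ((k : ℕ) + 1)) := fun a ha => by
      rw [hTs, Set.Finite.mem_toFinset] at ha
      exact ha
    set T1 := Ts.filter (fun a => ∃ x : ℝ, 1 / R ≤ |x| ∧ |x| ≤ R ∧
        pv (pt E H (fun i => p i / H) a) x = 0 ∧ |pd (pt E H (fun i => p i / H) a) x| ≤ η) with hT1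
    set T2 := Ts.filter (fun a => ∃ x : ℝ, 1 / R ≤ |x| ∧ |x| ≤ R ∧
        ∑ i, coeffs E p a i * x ^ (i : ℕ) = 0 ∧
        η * H ≤ |∑ i, coeffs E p a i * ((i : ℕ) * x ^ ((i : ℕ) - 1))| ∧
        ¬ JointlyNormal B A κ ε H (fun k : Fin m => x ^ ((k : ℕ) + 1))) with hT2
    have hcov : Ts ⊆ T1 ∪ T2 := by
      intro a ha
      obtain ⟨g1, x, g2, g3, g4, g5⟩ := hTsm a ha
      rw [mem_union, hT1, hT2, mem_filter, mem_filter]
      rcases le_total (|pd (pt E H (fun i => p i / H) a) x|) η with h | h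
      · refine Or.inl ⟨ha, x, g2, g3, ?_, h⟩
        rw [hpvH H q4, g4, zero_div]
      · refine Or.inr ⟨ha, x, g2, g3, g4, ?_, g5⟩
        rw [hpdH H q4, abs_div, abs_of_pos hHR, le_div_iff₀ hHR] at h
        exact h
    have hy : ∀ i, |p i / H| ≤ 1 := fun i => by
      rw [abs_div, abs_of_pos hHR, div_le_one hHR]
      exact hp i
    have c1 := hH1 H q1 (fun i => p i / H) hy T1 fun a ha => by
      obtain ⟨h1, h2⟩ := mem_filter.1 ha
      obtain ⟨g1, -⟩ := hTsm a h1
      refine ⟨g1.2, fun i => ?_, h2⟩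
      by_cases hi : i ∈ E
      · exact g1.1 i hi
      · rw [g1.2 i hi, abs_zero]
        positivity
    have c2 := hH2 H q2 p hp T2 fun a ha => by
      obtain ⟨h1, h2⟩ := mem_filter.1 ha
      exact ⟨(hTsm a h1).1, h2⟩
    have c3 : (Ts.card : ℝ) ≤ T1.card + T2.card := by
      exact_mod_cast (card_le_card hcov).trans (card_union_le _ _)
    have c4 : (H : ℝ) ^ E.card * Real.log H ^ (-1 : ℝ) ≤ ζ / 2 * (H : ℝ) ^ E.card := by
      rw [mul_comm]
      gcongr
      rw [Real.rpow_neg_one, inv_le_comm₀ l2 (by positivity), inv_div]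
      exact l1
    linarith
  · intro η T hη
    obtain ⟨H2, hH2⟩ := hpart2 η T hη
    refine ⟨H2, fun H hH p hp => ?_⟩
    have hfin : {a : Fin (D + 1) → ℤ | a ∈ Box E H ∧ ∃ x : ℝ, 1 / R ≤ |x| ∧ |x| ≤ R ∧
        ∑ i, coeffs E p a i * x ^ (i : ℕ) = 0 ∧
        η * H ≤ |∑ i, coeffs E p a i * ((i : ℕ) * x ^ ((i : ℕ) - 1))| ∧
        ¬ JointlyNormal B A κ ε H (fun k : Fin m => x ^ ((k : ℕ) + 1))}.Finite :=
      (Box_finite E H).subset fun a ha => ha.1
    rw [Set.ncard_eq_toFinset_card _ hfin]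
    exact hH2 H hH p hp _ fun a ha => by
      rw [Set.Finite.mem_toFinset] at ha
      exact ha

end Pool.Agent.H609.Spare.PrescribedCoefficients
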